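import Mathlib

set_option autoImplicit false

namespace Pool.Agent.Results.MP_e3b57e_co.PRegular

/-- The multiset of the products of the entries of `s` over all index sets of size `k`
(the summands of the elementary symmetric polynomial `e_k` evaluated at `s`). -/
def elem (k : ℕ) (s : Multiset ℕ) : Multiset ℕ :=
  (s.powersetCard k).map Multiset.prod

/-- The set of all the partitions `ε_k(lam)`, for `lam` a partition of `n` with at least `k`
parts. A partition is given by the multiset of its parts. -/
def image (k n : ℕ) : Set (Multiset ℕ) :=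
  {μ | ∃ lam : n.Partition, k ≤ Multiset.card lam.parts ∧ elem k lam.parts = μ}

/-- `reg d k n` is the number of `d`-regular partitions (no part is divisible by `d`) in
`image k n`. -/
noncomputable def reg (d k n : ℕ) : ℕ :=
  Set.ncard {μ | μ ∈ image k n ∧ ∀ x ∈ μ, ¬ d ∣ x}

theorem elem_one (s : Multiset ℕ) : elem 1 s = s := by
  unfold elem
  rw [Multiset.powersetCard_one, Multiset.map_map]
  simp

theorem elem_two_cons (a : ℕ) (s : Multiset ℕ) :
    elem 2 (a ::ₘ s) = elem 2 s + s.map (fun x => a * x) := by
  unfold elem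
  rw [Multiset.powersetCard_cons, Multiset.map_add, Multiset.powersetCard_one, Multiset.map_map,
    Multiset.map_map]
  congr 1
  apply Multiset.map_congr rfl
  intro x _
  simp

/-- the Newton identity of order two, for `m`-th powers -/
theorem newton_two (m : ℕ) (s : Multiset ℕ) :
    (s.map (fun x => x ^ m)).sum ^ 2 =
      (s.map (fun x => x ^ (2 * m))).sum + 2 * ((elem 2 s).map (fun x => x ^ m)).sum := by
  induction s using Multiset.induction with
  | empty =>
    have h0 : elem 2 (0 : Multiset ℕ) = 0 := by
      unfold elem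
      rw [Multiset.powersetCard_zero_right, Multiset.map_zero]
    simp [h0]
  | cons a s ih =>
    rw [elem_two_cons, Multiset.map_add, Multiset.sum_add, Multiset.map_cons, Multiset.map_cons,
      Multiset.sum_cons, Multiset.sum_cons, Multiset.map_map]
    have : (s.map ((fun x => x ^ m) ∘ fun x => a * x)).sum =
        a ^ m * (s.map (fun x => x ^ m)).sum := by
      rw [← Multiset.sum_map_mul_left]
      congr 1
      apply Multiset.map_congr rfl
      intro x _
      simp [mul_pow]
    rw [this, add_sq, ih, pow_mul]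
    ring_nf

theorem powsum_eq {s t : Multiset ℕ} (h1 : s.sum = t.sum) (h2 : elem 2 s = elem 2 t) (j : ℕ) :
    (s.map (fun x => x ^ (2 ^ j))).sum = (t.map (fun x => x ^ (2 ^ j))).sum := by
  induction j with
  | zero => simpa using h1
  | succ j ih =>
    have hs := newton_two (2 ^ j) s
    have ht := newton_two (2 ^ j) t
    rw [ih, ht, h2] at hs
    have e : 2 ^ (j + 1) = 2 * 2 ^ j := by ring
    rw [e]
    omega

theorem sum_pow_le (M m : ℕ) (s : Multiset ℕ) (h : ∀ x ∈ s, x ≤ M) :
    (s.map (fun x => x ^ m)).sum ≤ Multiset.card s * M ^ m := by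
  have := Multiset.sum_le_card_nsmul (s.map (fun x => x ^ m)) (M ^ m) (by
    intro y hy
    rw [Multiset.mem_map] at hy
    obtain ⟨x, hx, rfl⟩ := hy
    exact Nat.pow_le_pow_left (h x hx) m)
  simpa using this

/-- no top element in just one of the two -/
theorem no_top {s t : Multiset ℕ}
    (h : ∀ j, (s.map (fun x => x ^ (2 ^ j))).sum = (t.map (fun x => x ^ (2 ^ j))).sum)
    {a : ℕ} (ha : a ∈ s) (ha0 : 0 < a) (hlt : ∀ x ∈ t, x < a) : False := by
  obtain ⟨b, rfl⟩ : ∃ b, a = b + 1 := ⟨a - 1, by omega⟩
  have h1 : ∀ j, (b + 1) ^ (2 ^ j) ≤ Multiset.card t * b ^ (2 ^ j) := by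
    intro j
    calc (b + 1) ^ (2 ^ j) ≤ (s.map (fun x => x ^ (2 ^ j))).sum := by
          apply Multiset.single_le_sum (fun _ _ => Nat.zero_le _)
          exact Multiset.mem_map_of_mem _ ha
      _ = _ := h j
      _ ≤ _ := sum_pow_le b _ t (fun x hx => by have := hlt x hx; omega)
  rcases Nat.eq_zero_or_pos b with hb | hb
  · subst hb
    have := h1 0
    simp at this
  · set c := Multiset.card t
    have h2 := h1 (c * b + c + 1)
    set m := 2 ^ (c * b + c + 1) with hm
    have hmc : c * b + c + 1 < m := Nat.lt_two_pow_self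
    -- Bernoulli: (b+1)^m ≥ b^m + m b^(m-1)
    have hbern : (1 + (m : ℝ) * (1 / b)) ≤ (1 + 1 / (b : ℝ)) ^ m := by
      apply one_add_mul_le_pow
      have : (0 : ℝ) ≤ 1 / b := by positivity
      linarith
    have hb' : (0 : ℝ) < b := by exact_mod_cast hb
    have e1 : (1 + 1 / (b : ℝ)) ^ m * (b : ℝ) ^ m = ((b : ℝ) + 1) ^ m := by
      rw [← mul_pow]
      congr 1
      field_simp
    have h3 : ((b : ℝ) + 1) ^ m ≤ c * (b : ℝ) ^ m := by exact_mod_cast h2
    rw [← e1] at h3
    have h4 : (1 + 1 / (b : ℝ)) ^ m ≤ c := le_of_mul_le_mul_right h3 (by positivity)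
    have h5 : (m : ℝ) * (1 / b) ≤ c := by linarith
    have h6 : (m : ℝ) ≤ c * b := by
      rw [mul_one_div, div_le_iff₀ hb'] at h5
      exact h5
    have h7 : m ≤ c * b := by exact_mod_cast h6
    omega

theorem eq_of_powsum (N : ℕ) : ∀ {s t : Multiset ℕ}, Multiset.card s + Multiset.card t ≤ N →
    (∀ x ∈ s, 0 < x) → (∀ x ∈ t, 0 < x) →
    (∀ j, (s.map (fun x => x ^ (2 ^ j))).sum = (t.map (fun x => x ^ (2 ^ j))).sum) → s = t := by
  induction N with
  | zero =>
    intro s t hN _ _ _
    have h1 : s = 0 := by rw [← Multiset.card_eq_zero]; omega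
    have h2 : t = 0 := by rw [← Multiset.card_eq_zero]; omega
    rw [h1, h2]
  | succ N ih =>
    intro s t hN hs ht h
    by_cases h0 : s + t = 0
    · have h1 : s = 0 := by
        rw [← Multiset.card_eq_zero]
        have := congrArg Multiset.card h0
        simp at this
        simp [this.1]
      have h2 : t = 0 := by
        rw [← Multiset.card_eq_zero]
        have := congrArg Multiset.card h0
        simp at this
        simp [this.2]
      rw [h1, h2]
    · obtain ⟨a, ha, hmax⟩ : ∃ a ∈ s + t, ∀ x ∈ s + t, x ≤ a := by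
        have hne : (s + t).toFinset.Nonempty := by
          rw [Multiset.toFinset_nonempty]
          exact h0
        refine ⟨(s + t).toFinset.max' hne, ?_, ?_⟩
        · rw [← Multiset.mem_toFinset]
          exact Finset.max'_mem _ _
        · intro x hx
          exact Finset.le_max' _ _ (Multiset.mem_toFinset.2 hx)
      by_cases has : a ∈ s
      · by_cases hat : a ∈ t
        · obtain ⟨s', rfl⟩ := Multiset.exists_cons_of_mem has
          obtain ⟨t', rfl⟩ := Multiset.exists_cons_of_mem hat
          have : s' = t' := by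
            apply ih
            · simp only [Multiset.card_cons] at hN
              omega
            · intro x hx; exact hs x (Multiset.mem_cons_of_mem hx)
            · intro x hx; exact ht x (Multiset.mem_cons_of_mem hx)
            · intro j
              have := h j
              simp only [Multiset.map_cons, Multiset.sum_cons] at this
              omega
          rw [this]
        · exfalso
          refine no_top h has (hs a has) ?_
          intro x hx
          have := hmax x (Multiset.mem_add.2 (Or.inr hx))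
          rcases Nat.lt_or_ge x a with h' | h'
          · exact h'
          · exact absurd (le_antisymm h' this ▸ hx) hat
      · have hat : a ∈ t := by
          rcases Multiset.mem_add.1 ha with h' | h'
          · exact absurd h' has
          · exact h'
        exfalso
        refine no_top (fun j => (h j).symm) hat (ht a hat) ?_
        intro x hx
        have := hmax x (Multiset.mem_add.2 (Or.inl hx))
        rcases Nat.lt_or_ge x a with h' | h'
        · exact h'
        · exact absurd (le_antisymm h' this ▸ hx) has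

/-- `ε_2` is injective on the partitions of `n`. -/
theorem elem_two_inj {s t : Multiset ℕ} (hs : ∀ x ∈ s, 0 < x) (ht : ∀ x ∈ t, 0 < x)
    (h1 : s.sum = t.sum) (h2 : elem 2 s = elem 2 t) : s = t :=
  eq_of_powsum _ le_rfl hs ht (powsum_eq h1 h2)

theorem elem_two_regular {p : ℕ} (hp : p.Prime) {s : Multiset ℕ} (hs : 2 ≤ Multiset.card s) :
    (∀ x ∈ elem 2 s, ¬ p ∣ x) ↔ ∀ x ∈ s, ¬ p ∣ x := by
  constructor
  · intro h x hx hpx
    obtain ⟨s', rfl⟩ := Multiset.exists_cons_of_mem hx
    rw [Multiset.card_cons] at hs
    have : s' ≠ 0 := by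
      rintro rfl
      simp at hs
    obtain ⟨y, hy⟩ := Multiset.exists_mem_of_ne_zero this
    refine h (x * y) ?_ (Dvd.dvd.mul_right hpx y)
    rw [elem_two_cons, Multiset.mem_add]
    right
    exact Multiset.mem_map_of_mem _ hy
  · intro h x hx hpx
    unfold elem at hx
    rw [Multiset.mem_map] at hx
    obtain ⟨u, hu, rfl⟩ := hx
    rw [Multiset.mem_powersetCard] at hu
    obtain ⟨y, hy, hpy⟩ := hp.prime.exists_mem_multiset_dvd hpx
    exact h y (Multiset.mem_of_le hu.1 hy) hpy

theorem reg_one (d n : ℕ) :
    reg d 1 n = Set.ncard {lam : n.Partition | 1 ≤ Multiset.card lam.parts ∧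
      ∀ x ∈ lam.parts, ¬ d ∣ x} := by
  unfold reg image
  rw [← Set.ncard_image_of_injective (f := fun lam : n.Partition => lam.parts)]
  · congr 1
    ext μ
    simp only [elem_one, Set.mem_ofPred_eq, Set.mem_image]
    constructor
    · rintro ⟨⟨lam, h1, rfl⟩, h2⟩
      exact ⟨lam, ⟨h1, h2⟩, rfl⟩
    · rintro ⟨lam, ⟨h1, h2⟩, rfl⟩
      exact ⟨⟨lam, h1, rfl⟩, h2⟩
  · intro a b hab
    exact Nat.Partition.ext hab

theorem reg_two {p : ℕ} (hp : p.Prime) (n : ℕ) :
    reg p 2 n = Set.ncard {lam : n.Partition | 2 ≤ Multiset.card lam.parts ∧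
      ∀ x ∈ lam.parts, ¬ p ∣ x} := by
  unfold reg image
  rw [← Set.ncard_image_of_injective (f := fun lam : n.Partition => elem 2 lam.parts)]
  · congr 1
    ext μ
    simp only [Set.mem_ofPred_eq, Set.mem_image]
    constructor
    · rintro ⟨⟨lam, h1, rfl⟩, h2⟩
      exact ⟨lam, ⟨h1, (elem_two_regular hp h1).1 h2⟩, rfl⟩
    · rintro ⟨lam, ⟨h1, h2⟩, rfl⟩
      exact ⟨⟨lam, h1, rfl⟩, (elem_two_regular hp h1).2 h2⟩
  · intro a b hab
    apply Nat.Partition.ext
    refine elem_two_inj (fun x hx => a.parts_pos hx) (fun x hx => b.parts_pos hx) ?_ hab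
    rw [a.parts_sum, b.parts_sum]

theorem result (p n : ℕ) (hp : p.Prime) :
    (reg p 1 n : ℤ) - (reg p 2 n : ℤ) = if p ∣ n then 0 else 1 := by
  rw [reg_one, reg_two hp]
  set A := {lam : n.Partition | 1 ≤ Multiset.card lam.parts ∧ ∀ x ∈ lam.parts, ¬ p ∣ x} with hA
  set B := {lam : n.Partition | 2 ≤ Multiset.card lam.parts ∧ ∀ x ∈ lam.parts, ¬ p ∣ x} with hB
  have hBA : B ⊆ A := by
    rintro lam ⟨h1, h2⟩
    exact ⟨by omega, h2⟩
  have hfin : A.Finite := Set.toFinite A
  have hcard : (A \ B).ncard + B.ncard = A.ncard := Set.ncard_sdiff_add_ncard_of_subset hBA hfin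
  have hdiff : (A \ B).ncard = if p ∣ n then 0 else 1 := by
    by_cases hpn : p ∣ n
    · rw [if_pos hpn, Set.ncard_eq_zero (hs := hfin.subset Set.sdiff_subset)]
      rw [Set.eq_empty_iff_forall_notMem]
      rintro lam ⟨⟨h1, h2⟩, h3⟩
      have hc : Multiset.card lam.parts = 1 := by
        by_contra hne
        exact h3 ⟨by omega, h2⟩
      rw [Multiset.card_eq_one] at hc
      obtain ⟨a, ha⟩ := hc
      have hs := lam.parts_sum
      rw [ha, Multiset.sum_singleton] at hs
      subst hs
      exact h2 a (by rw [ha]; exact Multiset.mem_singleton_self a) hpn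
    · rw [if_neg hpn, Set.ncard_eq_one]
      have hn : n ≠ 0 := by
        rintro rfl
        exact hpn (dvd_zero p)
      refine ⟨Nat.Partition.indiscrete n, ?_⟩
      have hind : (Nat.Partition.indiscrete n).parts = {n} := Nat.Partition.indiscrete_parts hn
      ext lam
      simp only [Set.mem_sdiff, Set.mem_singleton_iff]
      constructor
      · rintro ⟨⟨h1, h2⟩, h3⟩
        have hc : Multiset.card lam.parts = 1 := by
          by_contra hne
          exact h3 ⟨by omega, h2⟩
        rw [Multiset.card_eq_one] at hc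
        obtain ⟨a, ha⟩ := hc
        have hs := lam.parts_sum
        rw [ha, Multiset.sum_singleton] at hs
        apply Nat.Partition.ext
        rw [ha, hind, hs]
      · rintro rfl
        refine ⟨⟨?_, ?_⟩, ?_⟩
        · rw [hind]; simp
        · rw [hind]; simpa using hpn
        · rintro ⟨h1, -⟩
          rw [hind] at h1
          simp at h1
  have : (A.ncard : ℤ) = (A \ B).ncard + B.ncard := by exact_mod_cast hcard.symm
  rw [this, hdiff]
  split_ifs <;> simp

end Pool.Agent.Results.MP_e3b57e_co.PRegular
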